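import Mathlib

/-!
Curves and the length spent outside a closed set.
-/

namespace R380.Exc

open Set Filter Topology MeasureTheory

open scoped ENNReal

variable {E : Type*} [MetricSpace E]

/-- the times in `[0,1]` at which the curve is outside `K` -/
def outside (K : Set E) (γ : ℝ → E) : Set ℝ := {t | t ∈ Icc (0 : ℝ) 1 ∧ γ t ∉ K}

/-- the intervals `J_k`: the connected components of the set of times outside `K` -/
def comps (K : Set E) (γ : ℝ → E) : Set (Set ℝ) :=
  {J | ∃ t ∈ outside K γ, J = connectedComponentIn (outside K γ) t}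

/-- the length that the curve spends outside `K` -/
noncomputable def lengthOutside (K : Set E) (γ : ℝ → E) : ℝ≥0∞ :=
  ∑' J : comps K γ, eVariationOn γ (J : Set ℝ)

/-- times in `K` -/
def inside (K : Set E) (γ : ℝ → E) : Set ℝ := {t | t ∈ Icc (0 : ℝ) 1 ∧ γ t ∈ K}

lemma inside_closed {K : Set E} (hK : IsClosed K) {γ : ℝ → E} (hγ : ContinuousOn γ (Icc 0 1)) :
    IsClosed (inside K γ) := by
  have : inside K γ = Icc 0 1 ∩ γ ⁻¹' K := rfl
  rw [this]
  exact hγ.preimage_isClosed_of_isClosed isClosed_Icc hK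

omit [MetricSpace E] in
lemma comp_mem {K : Set E} {γ : ℝ → E} {a b : ℝ} (hab : a < b) (ha : a ∈ inside K γ)
    (hb : b ∈ inside K γ) (h : ∀ t ∈ Ioo a b, t ∉ inside K γ) : Ioo a b ∈ comps K γ := by
  have hsub : Ioo a b ⊆ outside K γ := by
    intro t ht
    have h01 : t ∈ Icc (0 : ℝ) 1 := ⟨ha.1.1.trans ht.1.le, ht.2.le.trans hb.1.2⟩
    exact ⟨h01, fun hc => h t ht ⟨h01, hc⟩⟩
  have hm : (a + b) / 2 ∈ Ioo a b := ⟨by linarith, by linarith⟩
  refine ⟨(a + b) / 2, hsub hm, ?_⟩
  apply Subset.antisymm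
  · exact isPreconnected_Ioo.subset_connectedComponentIn hm hsub
  · intro y hy
    have hpre : IsPreconnected (connectedComponentIn (outside K γ) ((a + b) / 2)) :=
      isPreconnected_connectedComponentIn
    have hord := hpre.ordConnected
    have hsc := connectedComponentIn_subset (outside K γ) ((a + b) / 2)
    have hmc : (a + b) / 2 ∈ connectedComponentIn (outside K γ) ((a + b) / 2) :=
      mem_connectedComponentIn (hsub hm)
    constructor
    · by_contra hc
      push Not at hc
      have : a ∈ connectedComponentIn (outside K γ) ((a + b) / 2) :=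
        hord.out hy hmc ⟨hc, hm.1.le⟩
      exact (hsc this).2 ha.2
    · by_contra hc
      push Not at hc
      have : b ∈ connectedComponentIn (outside K γ) ((a + b) / 2) :=
        hord.out hmc hy ⟨hm.2.le, hc⟩
      exact (hsc this).2 hb.2

lemma comp_var {γ : ℝ → E} (hγ : ContinuousOn γ (Icc 0 1)) {a b : ℝ} (hab : a < b)
    (ha : a ∈ Icc (0 : ℝ) 1) (hb : b ∈ Icc (0 : ℝ) 1) :
    edist (γ a) (γ b) ≤ eVariationOn γ (Ioo a b) := by
  have hn : Tendsto (fun k : ℕ => (b - a) / ((k : ℝ) + 3)) atTop (𝓝 0) := by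
    have : Tendsto (fun k : ℕ => ((k : ℝ) + 3)) atTop atTop :=
      tendsto_atTop_add_const_right _ _ tendsto_natCast_atTop_atTop
    exact this.const_div_atTop (b - a)
  have h3 : ∀ k : ℕ, 0 < (b - a) / ((k : ℝ) + 3) ∧ (b - a) / ((k : ℝ) + 3) ≤ (b - a) / 3 := by
    intro k
    have hk : (0 : ℝ) < (k : ℝ) + 3 := by positivity
    refine ⟨div_pos (by linarith) hk, ?_⟩
    apply div_le_div_of_nonneg_left (by linarith) (by norm_num)
    have : (0 : ℝ) ≤ k := Nat.cast_nonneg k
    linarith
  have ta : Tendsto (fun k : ℕ => a + (b - a) / ((k : ℝ) + 3)) atTop (𝓝[Icc 0 1] a) := by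
    refine tendsto_nhdsWithin_iff.2 ⟨?_, Eventually.of_forall (fun k => ?_)⟩
    · simpa using (tendsto_const_nhds (x := a)).add hn
    · have := h3 k
      constructor
      · linarith [ha.1]
      · linarith [hb.2]
  have tb : Tendsto (fun k : ℕ => b - (b - a) / ((k : ℝ) + 3)) atTop (𝓝[Icc 0 1] b) := by
    refine tendsto_nhdsWithin_iff.2 ⟨?_, Eventually.of_forall (fun k => ?_)⟩
    · simpa using (tendsto_const_nhds (x := b)).sub hn
    · have := h3 k
      constructor
      · linarith [ha.1]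
      · linarith [hb.2]
  have t1 := (hγ a ha).tendsto.comp ta
  have t2 := (hγ b hb).tendsto.comp tb
  have t3 := t1.edist t2
  refine le_of_tendsto' t3 (fun k => ?_)
  have := h3 k
  exact eVariationOn.edist_le γ ⟨by linarith, by linarith⟩ ⟨by linarith, by linarith⟩

/-- data: labels on the times of an interval at which the curve is in `K` -/
theorem null_on {K : Set E} (hK : IsClosed K) {γ : ℝ → E} (hγ : ContinuousOn γ (Icc 0 1))
    (hL : lengthOutside K γ ≠ ⊤) (p : ℝ → ℝ) {a b : ℝ} (hab : Icc a b ⊆ Icc 0 1)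
    (lab : ℕ → ℝ → ℕ) (hbd : ∀ m t, lab m t ≤ 5 ^ m)
    (hsep : ∀ m, ∀ t ∈ inside K γ ∩ Icc a b, ∀ t' ∈ inside K γ ∩ Icc a b, lab m t ≠ lab m t' →
      (6 / 25 : ℝ) ^ m / 1200 ≤ dist (γ t) (γ t'))
    (hclose : ∀ m, ∀ t ∈ inside K γ ∩ Icc a b, ∀ t' ∈ inside K γ ∩ Icc a b, lab m t = lab m t' →
      |p t - p t'| ≤ 2 / 5 ^ m) :
    volume (p '' (inside K γ ∩ Icc a b)) = 0 := by
  classical
  set S := inside K γ ∩ Icc a b with hS
  have hScl : IsClosed S := (inside_closed hK hγ).inter isClosed_Icc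
  have hScomp : IsCompact S := isCompact_Icc.inter_left (inside_closed hK hγ)
  rcases S.eq_empty_or_nonempty with hemp | hne
  · rw [hemp]; simp
  set L := (lengthOutside K γ).toReal with hLdef
  have hmain : ∀ m : ℕ, volume (p '' S) ≤ ENNReal.ofReal (4 / 5 ^ m + 4800 * L * (5 / 6) ^ m) := by
    intro m
    set δ : ℝ := (6 / 25 : ℝ) ^ m / 1200 with hδ
    have hδ0 : 0 < δ := by positivity
    -- labels are locally constant
    have hloc : ∀ t ∈ S, ∀ B : Set ℝ, B ⊆ S → t ∈ closure B → ∃ x ∈ B, lab m x = lab m t := by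
      intro t ht B hB hcl
      have hc : Tendsto γ (𝓝[Icc 0 1] t) (𝓝 (γ t)) := hγ t ht.1.1
      have hev : ∀ᶠ x in 𝓝[Icc 0 1] t, dist (γ x) (γ t) < δ := hc.eventually (Metric.ball_mem_nhds _ hδ0)
      rw [eventually_nhdsWithin_iff] at hev
      have hfr := mem_closure_iff_frequently.1 hcl
      obtain ⟨x, hxB, hx⟩ := (hfr.and_eventually hev).exists
      refine ⟨x, hxB, ?_⟩
      by_contra hne'
      have h1 := hsep m x (hB hxB) t ht hne'
      have h2 := hx (hB hxB).1.1
      linarith
    let A : ℕ → Set ℝ := fun v => {t ∈ S | lab m t = v}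
    have hAcl : ∀ v, IsClosed (A v) := by
      intro v
      refine isClosed_of_closure_subset (fun t ht => ?_)
      have htS : t ∈ S := by
        have : closure (A v) ⊆ S := closure_minimal (fun x hx => hx.1) hScl
        exact this ht
      obtain ⟨x, hx, he⟩ := hloc t htS (A v) (fun x hx => hx.1) ht
      exact ⟨htS, by rw [← he]; exact hx.2⟩
    have hAcomp : ∀ v, IsCompact (A v) := fun v =>
      hScomp.of_isClosed_subset (hAcl v) (fun x hx => hx.1)
    have hfin : (lab m '' S).Finite :=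
      (Set.finite_Iic (5 ^ m)).subset (by rintro _ ⟨t, -, rfl⟩; exact hbd m t)
    let V : Finset ℕ := hfin.toFinset
    have hVmem : ∀ v, v ∈ V ↔ ∃ t ∈ S, lab m t = v := by
      intro v; simp [V]
    let T : ℕ → ℝ := fun v => sInf (A v)
    have hT : ∀ v ∈ V, T v ∈ A v := by
      intro v hv
      obtain ⟨t, ht, he⟩ := (hVmem v).1 hv
      exact (hAcomp v).sInf_mem ⟨t, ht, he⟩
    have hTle : ∀ v, ∀ t ∈ A v, T v ≤ t := by
      intro v t ht
      exact csInf_le (hAcomp v).bddBelow ht
    set t0 := sInf S with ht0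
    have ht0S : t0 ∈ S := hScomp.sInf_mem hne
    set v0 := lab m t0 with hv0
    have hv0V : v0 ∈ V := (hVmem v0).2 ⟨t0, ht0S, rfl⟩
    -- the excursion before the first visit
    have hexc : ∀ v ∈ V.erase v0, ∃ c : ℝ, c < T v ∧ Ioo c (T v) ∈ comps K γ ∧
        ENNReal.ofReal δ ≤ eVariationOn γ (Ioo c (T v)) := by
      intro v hv
      have hvV : v ∈ V := Finset.mem_of_mem_erase hv
      have hvne : v ≠ v0 := Finset.ne_of_mem_erase hv
      have hTv := hT v hvV
      have hlt0 : t0 < T v := by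
        have hle : t0 ≤ T v := csInf_le hScomp.bddBelow hTv.1
        refine lt_of_le_of_ne hle ?_
        intro hc
        apply hvne
        rw [hv0, hc]; exact hTv.2.symm
      let B : Set ℝ := S ∩ Iio (T v)
      have hBne : B.Nonempty := ⟨t0, ht0S, hlt0⟩
      have hBbdd : BddAbove B := ⟨T v, fun x hx => hx.2.le⟩
      set c := sSup B with hc
      have hcle : c ≤ T v := csSup_le hBne (fun x hx => hx.2.le)
      have hccl : c ∈ closure B := csSup_mem_closure hBne hBbdd
      have hcS : c ∈ S := by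
        have : closure B ⊆ S := closure_minimal (fun x hx => hx.1) hScl
        exact this hccl
      have hclt : c < T v := by
        refine lt_of_le_of_ne hcle ?_
        intro hce
        rw [hce] at hccl
        obtain ⟨x, hx, he⟩ := hloc (T v) hTv.1 B (fun x hx => hx.1) hccl
        have : T v ≤ x := hTle v x ⟨hx.1, by rw [he]; exact hTv.2⟩
        exact absurd hx.2 (not_lt.2 this)
      have hlabc : lab m c ≠ lab m (T v) := by
        intro he
        have : T v ≤ c := hTle v c ⟨hcS, by rw [he]; exact hTv.2⟩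
        linarith
      refine ⟨c, hclt, ?_, ?_⟩
      · refine comp_mem hclt hcS.1 hTv.1.1 ?_
        intro t ht hti
        have htS : t ∈ S := ⟨hti, ⟨hcS.2.1.trans ht.1.le, ht.2.le.trans hTv.1.2.2⟩⟩
        have : t ≤ c := le_csSup hBbdd ⟨htS, ht.2⟩
        linarith [ht.1]
      · have h1 := comp_var hγ hclt hcS.1.1 hTv.1.1.1
        refine le_trans ?_ h1
        rw [edist_dist]
        exact ENNReal.ofReal_le_ofReal (hsep m c hcS (T v) hTv.1 hlabc)
    choose! c hc1 hc2 hc3 using hexc
    -- counting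
    have hcount : ((V.erase v0).card : ℝ≥0∞) * ENNReal.ofReal δ ≤ lengthOutside K γ := by
      let f : {v // v ∈ V.erase v0} → comps K γ := fun v => ⟨Ioo (c v.1) (T v.1), hc2 v.1 v.2⟩
      have hf : Function.Injective f := by
        intro v w hvw
        have h1 : Ioo (c v.1) (T v.1) = Ioo (c w.1) (T w.1) := congrArg Subtype.val hvw
        have h2 : T v.1 = T w.1 := by
          have e1 := csSup_Ioo (hc1 v.1 v.2)
          have e2 := csSup_Ioo (hc1 w.1 w.2)
          rw [← e1, ← e2, h1]
        have h3 := (hT v.1 (Finset.mem_of_mem_erase v.2)).2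
        have h4 := (hT w.1 (Finset.mem_of_mem_erase w.2)).2
        apply Subtype.ext
        rw [← h3, ← h4, h2]
      have h1 : ∑' v : {v // v ∈ V.erase v0}, eVariationOn γ ((f v : comps K γ) : Set ℝ)
          ≤ lengthOutside K γ :=
        ENNReal.tsum_comp_le_tsum_of_injective hf (fun J : comps K γ => eVariationOn γ (J : Set ℝ))
      refine le_trans ?_ h1
      rw [tsum_fintype]
      have h2 : ∑ _v : {v // v ∈ V.erase v0}, ENNReal.ofReal δ
          ≤ ∑ v : {v // v ∈ V.erase v0}, eVariationOn γ ((f v : comps K γ) : Set ℝ) :=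
        Finset.sum_le_sum (fun v _ => hc3 v.1 v.2)
      refine le_trans (le_of_eq ?_) h2
      rw [Finset.sum_const, nsmul_eq_mul, Finset.card_univ, Fintype.card_coe]
    have hcountR : ((V.card : ℝ) - 1) * δ ≤ L := by
      have h1 := (ENNReal.toReal_le_toReal (ENNReal.mul_ne_top (ENNReal.natCast_ne_top _)
        ENNReal.ofReal_ne_top) hL).2 hcount
      rw [ENNReal.toReal_mul, ENNReal.toReal_ofReal hδ0.le, ENNReal.toReal_natCast,
        Finset.card_erase_of_mem hv0V] at h1
      have h2 : 1 ≤ V.card := Finset.card_pos.2 ⟨v0, hv0V⟩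
      rw [Nat.cast_sub h2, Nat.cast_one] at h1
      exact h1
    -- covering
    have hcov : p '' S ⊆ ⋃ v ∈ V, Icc (p (T v) - 2 / 5 ^ m) (p (T v) + 2 / 5 ^ m) := by
      rintro _ ⟨t, ht, rfl⟩
      have hv : lab m t ∈ V := (hVmem _).2 ⟨t, ht, rfl⟩
      have hTv := hT _ hv
      have := hclose m t ht (T (lab m t)) hTv.1 hTv.2.symm
      rw [abs_le] at this
      simp only [mem_iUnion]
      exact ⟨lab m t, hv, by linarith [this.1], by linarith [this.2]⟩
    have hLnn : 0 ≤ L := ENNReal.toReal_nonneg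
    have hVle : (V.card : ℝ) ≤ 1 + L / δ := by
      rw [← sub_le_iff_le_add', le_div_iff₀ hδ0]
      exact hcountR
    calc volume (p '' S) ≤ volume (⋃ v ∈ V, Icc (p (T v) - 2 / 5 ^ m) (p (T v) + 2 / 5 ^ m)) :=
          measure_mono hcov
      _ ≤ ∑ v ∈ V, volume (Icc (p (T v) - 2 / 5 ^ m) (p (T v) + 2 / 5 ^ m)) :=
          measure_biUnion_finset_le _ _
      _ = ∑ _v ∈ V, ENNReal.ofReal (4 / 5 ^ m) := by
          refine Finset.sum_congr rfl (fun v _ => ?_)
          rw [Real.volume_Icc]
          congr 1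
          ring
      _ = ENNReal.ofReal ((V.card : ℝ) * (4 / 5 ^ m)) := by
          rw [Finset.sum_const, nsmul_eq_mul, ENNReal.ofReal_mul (Nat.cast_nonneg _),
            ENNReal.ofReal_natCast]
      _ ≤ ENNReal.ofReal (4 / 5 ^ m + 4800 * L * (5 / 6) ^ m) := by
          apply ENNReal.ofReal_le_ofReal
          have h5 : (0 : ℝ) < 5 ^ m := by positivity
          have e1 : (1 + L / δ) * (4 / 5 ^ m) = 4 / 5 ^ m + 4800 * L * (5 / 6) ^ m := by
            rw [hδ, div_pow, div_pow]
            have h6 : (0 : ℝ) < 6 ^ m := by positivity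
            have h25 : (25 : ℝ) ^ m = 5 ^ m * 5 ^ m := by rw [← mul_pow]; norm_num
            rw [h25]
            field_simp
            ring
          calc (V.card : ℝ) * (4 / 5 ^ m) ≤ (1 + L / δ) * (4 / 5 ^ m) := by
                gcongr
            _ = _ := e1
  have hlim : Tendsto (fun m : ℕ => ENNReal.ofReal (4 / 5 ^ m + 4800 * L * (5 / 6) ^ m)) atTop (𝓝 0) := by
    have h1 : Tendsto (fun m : ℕ => 4 * (1 / 5 : ℝ) ^ m + 4800 * L * (5 / 6) ^ m) atTop
        (𝓝 (4 * 0 + 4800 * L * 0)) :=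
      ((tendsto_pow_atTop_nhds_zero_of_lt_one (by norm_num) (by norm_num)).const_mul _).add
        ((tendsto_pow_atTop_nhds_zero_of_lt_one (by norm_num) (by norm_num)).const_mul _)
    have h2 : Tendsto (fun m : ℕ => (4 : ℝ) / 5 ^ m + 4800 * L * (5 / 6) ^ m) atTop (𝓝 0) := by
      have e : (4 : ℝ) * 0 + 4800 * L * 0 = 0 := by ring
      rw [e] at h1
      refine h1.congr (fun m => ?_)
      rw [div_pow (1 : ℝ), one_pow]; ring
    have h3 := (ENNReal.continuous_ofReal.tendsto 0).comp h2
    rw [ENNReal.ofReal_zero] at h3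
    exact h3
  exact le_antisymm (ge_of_tendsto' hlim hmain) zero_le

/-- the final counting -/
theorem lower_bound {K : Set E} (hK : IsClosed K) {γ : ℝ → E} (hγ : ContinuousOn γ (Icc 0 1))
    (h0 : γ 0 ∈ K) (h1 : γ 1 ∈ K) (P : E → ℝ) {C : ℝ} (hC : 0 < C)
    (hP0 : P (γ 0) = 0) (hP1 : P (γ 1) = 1)
    (hlip : ∀ z ∈ K, ∀ w ∈ K, |P z - P w| ≤ C * dist z w)
    (hnull : lengthOutside K γ ≠ ⊤ → volume ((fun t => P (γ t)) '' (inside K γ)) = 0) :
    ENNReal.ofReal (1 / C) ≤ lengthOutside K γ := by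
  classical
  by_cases hL : lengthOutside K γ = ⊤
  · rw [hL]; exact le_top
  have hvol := hnull hL
  set p : ℝ → ℝ := fun t => P (γ t) with hp
  set T := inside K γ with hT
  have hTcl : IsClosed T := inside_closed hK hγ
  have hTcomp : IsCompact T := isCompact_Icc.of_isClosed_subset hTcl (fun t ht => ht.1)
  have m0 : (0 : ℝ) ∈ T := ⟨by simp, h0⟩
  have m1 : (1 : ℝ) ∈ T := ⟨by simp, h1⟩
  have hpc : ContinuousOn p T := by
    have hPK : ContinuousOn P K := by
      rw [Metric.continuousOn_iff]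
      intro z hz ε hε
      refine ⟨ε / C, by positivity, fun w hw hd => ?_⟩
      rw [Real.dist_eq]
      calc |P w - P z| ≤ C * dist w z := hlip w hw z hz
        _ < C * (ε / C) := by gcongr
        _ = ε := by field_simp
    exact hPK.comp (hγ.mono (fun t ht => ht.1)) (fun t ht => ht.2)
  let B : comps K γ → Set ℝ := fun J => {r | ∃ a b : ℝ, (J : Set ℝ) = Ioo a b ∧ a < b ∧ a ∈ T ∧ b ∈ T ∧
    p a < r ∧ r < p b}
  have hBvol : ∀ J, volume (B J) ≤ ENNReal.ofReal C * eVariationOn γ (J : Set ℝ) := by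
    intro J
    by_cases hJ : ∃ a b : ℝ, (J : Set ℝ) = Ioo a b ∧ a < b ∧ a ∈ T ∧ b ∈ T
    · obtain ⟨a, b, hJe, hab, ha, hb⟩ := hJ
      have hsub : B J ⊆ Ioo (p a) (p b) := by
        rintro r ⟨a', b', hJ', hab', -, -, hr1, hr2⟩
        have e : Ioo a b = Ioo a' b' := by rw [← hJe, ← hJ']
        have ea : a = a' := by
          have e1 := csInf_Ioo hab
          have e2 := csInf_Ioo hab'
          rw [← e1, ← e2, e]
        have eb : b = b' := by
          have e1 := csSup_Ioo hab
          have e2 := csSup_Ioo hab'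
          rw [← e1, ← e2, e]
        rw [ea, eb]
        exact ⟨hr1, hr2⟩
      calc volume (B J) ≤ volume (Ioo (p a) (p b)) := measure_mono hsub
        _ = ENNReal.ofReal (p b - p a) := Real.volume_Ioo
        _ ≤ ENNReal.ofReal (C * dist (γ a) (γ b)) := by
            apply ENNReal.ofReal_le_ofReal
            have := hlip (γ b) hb.2 (γ a) ha.2
            rw [dist_comm (γ a)]
            exact (le_abs_self _).trans this
        _ = ENNReal.ofReal C * edist (γ a) (γ b) := by
            rw [ENNReal.ofReal_mul hC.le, edist_dist]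
        _ ≤ ENNReal.ofReal C * eVariationOn γ (J : Set ℝ) := by
            rw [hJe]
            gcongr
            exact comp_var hγ hab ha.1 hb.1
    · have : B J = ∅ := by
        rw [eq_empty_iff_forall_notMem]
        rintro r ⟨a, b, h1', h2', h3', h4', -, -⟩
        exact hJ ⟨a, b, h1', h2', h3', h4'⟩
      rw [this]; simp
  have hsupp : (Function.support (fun J : comps K γ => eVariationOn γ (J : Set ℝ))).Countable :=
    Summable.countable_support_ennreal hL
  set Sp := Function.support (fun J : comps K γ => eVariationOn γ (J : Set ℝ)) with hSp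
  have hcov : Icc (0 : ℝ) 1 ⊆ p '' T ∪ ⋃ J ∈ Sp, B J := by
    intro r hr
    by_cases hrT : r ∈ p '' T
    · exact Or.inl hrT
    · right
      have hr0 : p 0 < r := by
        have : p 0 = 0 := hP0
        rw [this]
        refine lt_of_le_of_ne hr.1 ?_
        intro hc
        exact hrT ⟨0, m0, by rw [this, hc]⟩
      have hr1 : r < p 1 := by
        have : p 1 = 1 := hP1
        rw [this]
        refine lt_of_le_of_ne hr.2 ?_
        intro hc
        exact hrT ⟨1, m1, by rw [this, hc]⟩
      let A : Set ℝ := T ∩ p ⁻¹' (Iic r)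
      have hAcl : IsClosed A := hpc.preimage_isClosed_of_isClosed hTcl isClosed_Iic
      have hAcomp : IsCompact A := hTcomp.of_isClosed_subset hAcl (fun t ht => ht.1)
      have hAne : A.Nonempty := ⟨0, m0, hr0.le⟩
      set a := sSup A with ha
      have haA : a ∈ A := hAcomp.sSup_mem hAne
      have hpa : p a < r := by
        refine lt_of_le_of_ne haA.2 ?_
        intro hc
        exact hrT ⟨a, haA.1, hc⟩
      let D : Set ℝ := (T ∩ p ⁻¹' (Ici r)) ∩ Ici a
      have hDcl : IsClosed D :=
        (hpc.preimage_isClosed_of_isClosed hTcl isClosed_Ici).inter isClosed_Ici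
      have hDcomp : IsCompact D := hTcomp.of_isClosed_subset hDcl (fun t ht => ht.1.1)
      have hDne : D.Nonempty := ⟨1, ⟨m1, hr1.le⟩, haA.1.1.2⟩
      set b := sInf D with hb
      have hbD : b ∈ D := hDcomp.sInf_mem hDne
      have hpb : r < p b := by
        refine lt_of_le_of_ne hbD.1.2 ?_
        intro hc
        exact hrT ⟨b, hbD.1.1, hc.symm⟩
      have hab : a < b := by
        refine lt_of_le_of_ne hbD.2 ?_
        intro hc
        rw [← hc] at hpb
        exact lt_asymm hpa hpb
      have hIoo : ∀ t ∈ Ioo a b, t ∉ inside K γ := by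
        intro t ht hti
        have htr : r < p t := by
          by_contra hc
          have : t ≤ a := le_csSup hAcomp.bddAbove ⟨hti, not_lt.1 hc⟩
          linarith [ht.1]
        have : b ≤ t := csInf_le hDcomp.bddBelow ⟨⟨hti, htr.le⟩, ht.1.le⟩
        linarith [ht.2]
      have hmem := comp_mem hab haA.1 hbD.1.1 hIoo
      have hvar := comp_var hγ hab haA.1.1 hbD.1.1.1
      have hne : (⟨Ioo a b, hmem⟩ : comps K γ) ∈ Sp := by
        rw [hSp, Function.mem_support]
        intro hc
        have hc' : eVariationOn γ (Ioo a b) = 0 := hc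
        rw [hc'] at hvar
        have he : γ a = γ b := edist_eq_zero.1 (le_antisymm hvar zero_le)
        have : p a = p b := by simp only [hp]; rw [he]
        linarith
      simp only [mem_iUnion]
      exact ⟨⟨Ioo a b, hmem⟩, hne, a, b, rfl, hab, haA.1, hbD.1.1, hpa, hpb⟩
  have hfinal : (1 : ℝ≥0∞) ≤ ENNReal.ofReal C * lengthOutside K γ := by
    calc (1 : ℝ≥0∞) = volume (Icc (0 : ℝ) 1) := by rw [Real.volume_Icc]; simp
      _ ≤ volume (p '' T ∪ ⋃ J ∈ Sp, B J) := measure_mono hcov
      _ ≤ volume (p '' T) + volume (⋃ J ∈ Sp, B J) := measure_union_le _ _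
      _ = volume (⋃ J ∈ Sp, B J) := by rw [hvol, zero_add]
      _ ≤ ∑' J : Sp, volume (B J) := measure_biUnion_le _ hsupp _
      _ ≤ ∑' J : Sp, ENNReal.ofReal C * eVariationOn γ ((J : comps K γ) : Set ℝ) :=
          ENNReal.tsum_le_tsum (fun J => hBvol J)
      _ ≤ ∑' J : comps K γ, ENNReal.ofReal C * eVariationOn γ (J : Set ℝ) :=
          ENNReal.tsum_comp_le_tsum_of_injective Subtype.val_injective
            (fun J : comps K γ => ENNReal.ofReal C * eVariationOn γ (J : Set ℝ))
      _ = ENNReal.ofReal C * lengthOutside K γ := by rw [ENNReal.tsum_mul_left]; rfl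
  have hC' : ENNReal.ofReal C ≠ 0 := by
    rw [Ne, ENNReal.ofReal_eq_zero]; linarith
  rw [one_div, ENNReal.ofReal_inv_of_pos hC]
  rw [ENNReal.inv_le_iff_le_mul]
  · exact hfinal
  · intro _; exact hC'
  · intro h; exact absurd h ENNReal.ofReal_ne_top

end R380.Exc
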