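import Pool.Agent.R380.Exc.Geo
import Pool.Agent.R380.Exc.Curve

namespace R380.Exc

open Set Filter Topology MeasureTheory

open scoped ENNReal

variable {n : ℕ}

/-- a chosen strand through a point of `K` -/
noncomputable def str (n : ℕ) (z : EuclideanSpace ℝ (Fin n)) : Sq :=
  open scoped Classical in if h : z ∈ Kset n then h.choose.1 else fun _ => 0

/-- the chosen parameter of a point of `K` -/
noncomputable def prm (n : ℕ) (z : EuclideanSpace ℝ (Fin n)) : ℝ :=
  open scoped Classical in if h : z ∈ Kset n then h.choose.2 else 0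

lemma str_spec {z : EuclideanSpace ℝ (Fin n)} (h : z ∈ Kset n) :
    pt n (str n z) (prm n z) = z ∧ prm n z ∈ Icc (0 : ℝ) 1 := by
  have hs := h.choose_spec
  unfold str prm
  rw [dif_pos h, dif_pos h]
  exact ⟨hs.2, hs.1.2⟩

/-- first coordinate -/
def fc (hn : 3 ≤ n) (z : EuclideanSpace ℝ (Fin n)) : ℝ := z ⟨0, by omega⟩

lemma fc_pt (hn : 3 ≤ n) (s : Sq) (x : ℝ) : fc hn (pt n s x) = x := by
  simp [fc, pt]

lemma prm_eq (hn : 3 ≤ n) {z : EuclideanSpace ℝ (Fin n)} (h : z ∈ Kset n) : prm n z = fc hn z := by
  have := (str_spec h).1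
  conv_rhs => rw [← this]
  rw [fc_pt]

lemma fc_cont (hn : 3 ≤ n) : Continuous (fc hn) := by
  unfold fc
  fun_prop

theorem main (hn : 3 ≤ n) (γ : ℝ → EuclideanSpace ℝ (Fin n)) (hγ : ContinuousOn γ (Icc 0 1))
    (h0 : γ 0 = pt n (fun _ => 0) 0) (h1 : γ 1 = pt n (fun _ => 4) 0) :
    ENNReal.ofReal (1 / 12000) ≤ lengthOutside (Kset n) γ := by
  have hK := (K_compact n).isClosed
  have hm : ∀ (s : Sq) (x : ℝ), x ∈ Icc (0 : ℝ) 1 → pt n s x ∈ Kset n := by
    intro s x hx
    exact ⟨(s, x), ⟨mem_univ _, hx⟩, rfl⟩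
  have hlip : ∀ z ∈ Kset n, ∀ w ∈ Kset n, |val (str n z) - val (str n w)| ≤ 12000 * dist z w := by
    intro z hz w hw
    have h1 := str_spec hz
    have h2 := str_spec hw
    have := pt_lip hn (str n z) (str n w) (prm n z) (prm n w) h1.2 h2.2
    rw [h1.1, h2.1] at this
    exact this
  have hval : ∀ (s : Sq) (x : ℝ), x ∈ Icc (0 : ℝ) 1 → val (str n (pt n s x)) = val s := by
    intro s x hx
    have h1 := str_spec (hm s x hx)
    have := pt_lip hn (str n (pt n s x)) s (prm n (pt n s x)) x h1.2 hx
    rw [h1.1, dist_self, mul_zero] at this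
    have := abs_nonpos_iff.1 this
    linarith
  have v0 : val (fun _ => (0 : Fin 5)) = 0 := by
    unfold val; simp
  have v4 : val (fun _ => (4 : Fin 5)) = 1 := by
    have h := val_rec (fun _ => (4 : Fin 5))
    have hs : sh (fun _ => (4 : Fin 5)) = (fun _ => (4 : Fin 5)) := rfl
    rw [hs] at h
    have h4 : (((4 : Fin 5) : ℕ) : ℝ) = 4 := by norm_num
    simp only [h4] at h
    linarith
  refine lower_bound hK hγ (by rw [h0]; exact hm _ _ (by simp)) (by rw [h1]; exact hm _ _ (by simp))
    (fun z => val (str n z)) (by norm_num) ?_ ?_ hlip ?_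
  · show val (str n (γ 0)) = 0
    rw [h0, hval _ _ (by simp)]
    exact v0
  · show val (str n (γ 1)) = 1
    rw [h1, hval _ _ (by simp)]
    exact v4
  · intro hL
    -- local nullity
    set p : ℝ → ℝ := fun t => val (str n (γ t)) with hp
    have hloc : ∀ (e : Fin 2) (a b : ℝ), Icc a b ⊆ Icc 0 1 →
        (∀ t ∈ Icc a b, Reg e (fc hn (γ t))) →
        volume (p '' (inside (Kset n) γ ∩ Icc a b)) = 0 := by
      intro e a b hab hreg
      refine null_on hK hγ hL p hab (fun m t => (idx m (str n (γ t)) + e.val) / 2) ?_ ?_ ?_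
      · intro m t
        have := idx_lt m (str n (γ t))
        have he := e.isLt
        show (idx m (str n (γ t)) + e.val) / 2 ≤ 5 ^ m
        omega
      · intro m t ht t' ht' hne
        have h1 := str_spec ht.1.2
        have h2 := str_spec ht'.1.2
        have r1 : Reg e (prm n (γ t)) := by
          rw [prm_eq hn ht.1.2]; exact hreg t ht.2
        have r2 : Reg e (prm n (γ t')) := by
          rw [prm_eq hn ht'.1.2]; exact hreg t' ht'.2
        have := pt_sep hn e m (str n (γ t)) (str n (γ t')) _ _ h1.2 h2.2 r1 r2 hne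
        rw [h1.1, h2.1] at this
        exact this
      · intro m t ht t' ht' he
        exact val_close he
    have hkey : volume (p '' (inside (Kset n) γ ∩ Icc 0 1)) = 0 := by
      refine IsCompact.induction_on (s := Icc (0 : ℝ) 1)
        (p := fun S => volume (p '' (inside (Kset n) γ ∩ S)) = 0) isCompact_Icc ?_ ?_ ?_ ?_
      · simp
      · intro s t hst ht
        exact measure_mono_null (image_mono (inter_subset_inter_right _ hst)) ht
      · intro s t hs ht
        rw [inter_union_distrib_left, image_union]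
        exact measure_union_null hs ht
      · intro t ht
        have hc : Tendsto (fun x => fc hn (γ x)) (𝓝[Icc 0 1] t) (𝓝 (fc hn (γ t))) :=
          ((fc_cont hn).tendsto _).comp (hγ t ht)
        obtain ⟨e, he⟩ : ∃ e : Fin 2, ∀ᶠ x in 𝓝[Icc 0 1] t, Reg e (fc hn (γ x)) := by
          by_cases hx : 1 / 2 ≤ fc hn (γ t)
          · refine ⟨0, ?_⟩
            have : ∀ᶠ x in 𝓝[Icc 0 1] t, 1 / 3 < fc hn (γ x) :=
              hc.eventually (lt_mem_nhds (by linarith))
            filter_upwards [this] with x hx
            simp only [Reg, if_pos]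
            exact hx.le
          · refine ⟨1, ?_⟩
            have : ∀ᶠ x in 𝓝[Icc 0 1] t, fc hn (γ x) < 2 / 3 :=
              hc.eventually (gt_mem_nhds (by push Not at hx; linarith))
            filter_upwards [this] with x hx
            simp only [Reg]
            rw [if_neg (by decide)]
            exact hx.le
        rw [eventually_nhdsWithin_iff, Metric.eventually_nhds_iff] at he
        obtain ⟨ε, hε, he⟩ := he
        have hIn : Icc (t - ε / 2) (t + ε / 2) ∩ Icc 0 1 ∈ 𝓝[Icc 0 1] t := by
          rw [inter_comm]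
          exact inter_mem self_mem_nhdsWithin
            (mem_nhdsWithin_of_mem_nhds (Icc_mem_nhds (by linarith) (by linarith)))
        refine ⟨_, hIn, ?_⟩
        rw [Icc_inter_Icc]
        refine hloc e _ _ ?_ ?_
        · intro x hx
          exact ⟨le_sup_right.trans hx.1, hx.2.trans inf_le_right⟩
        · intro x hx
          refine he ?_ ⟨le_sup_right.trans hx.1, hx.2.trans inf_le_right⟩
          rw [Real.dist_eq, abs_lt]
          have h1 : t - ε / 2 ≤ x := le_sup_left.trans hx.1
          have h2 : x ≤ t + ε / 2 := hx.2.trans inf_le_left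
          constructor <;> linarith
    have hsub : inside (Kset n) γ ∩ Icc 0 1 = inside (Kset n) γ := by
      apply inter_eq_left.2
      intro t ht; exact ht.1
    rw [hsub] at hkey
    exact hkey

end R380.Exc
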