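import Pool.Agent.R380.Exc.Sym

/-!
The compact connected set `K` in `ℝ^n`, `n ≥ 3`: the union of the arcs
`x ↦ (x, (1-x) X 1 s + x X 0 s, (1-x) Y 1 s + x Y 0 s, 0, ...)`.
-/

namespace R380.Exc

open Set Filter Topology

variable {n : ℕ}

/-- the point with parameter `x` on the strand `s` -/
noncomputable def pt (n : ℕ) (s : Sq) (x : ℝ) : EuclideanSpace ℝ (Fin n) :=
  WithLp.toLp 2 (fun i => if i.val = 0 then x else if i.val = 1 then (1 - x) * X 1 s + x * X 0 s
    else if i.val = 2 then (1 - x) * Y 1 s + x * Y 0 s else 0)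

lemma coord_le (z z' : EuclideanSpace ℝ (Fin n)) (i : Fin n) : |z i - z' i| ≤ dist z z' := by
  rw [dist_eq_norm]
  have := PiLp.norm_apply_le (z - z') i
  simpa [Real.norm_eq_abs] using this

lemma pt_d0 (hn : 3 ≤ n) (s t : Sq) (x y : ℝ) : |x - y| ≤ dist (pt n s x) (pt n t y) := by
  have := coord_le (pt n s x) (pt n t y) ⟨0, by omega⟩
  simpa [pt] using this

lemma pt_d1 (hn : 3 ≤ n) (s t : Sq) (x y : ℝ) :
    |((1 - x) * X 1 s + x * X 0 s) - ((1 - y) * X 1 t + y * X 0 t)|
      ≤ dist (pt n s x) (pt n t y) := by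
  have := coord_le (pt n s x) (pt n t y) ⟨1, by omega⟩
  simpa [pt] using this

lemma pt_d2 (hn : 3 ≤ n) (s t : Sq) (x y : ℝ) :
    |((1 - x) * Y 1 s + x * Y 0 s) - ((1 - y) * Y 1 t + y * Y 0 t)|
      ≤ dist (pt n s x) (pt n t y) := by
  have := coord_le (pt n s x) (pt n t y) ⟨2, by omega⟩
  simpa [pt] using this

/-- region `0` is `x ≥ 1/3`, region `1` is `x ≤ 2/3` -/
def Reg (e : Fin 2) (x : ℝ) : Prop := if e = 0 then 1 / 3 ≤ x else x ≤ 2 / 3

lemma sep_aux (hn : 3 ≤ n) (e : Fin 2) (m : ℕ) (s t : Sq) (x y : ℝ) (hx : x ∈ Icc (0 : ℝ) 1)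
    (hr : Reg e x) (hlt : idx m s < idx m t)
    (hg : (idx m s + e.val) / 2 ≠ (idx m t + e.val) / 2) :
    (6 / 25 : ℝ) ^ m / 1200 ≤ dist (pt n s x) (pt n t y) := by
  obtain ⟨α, β, a1, a2, b1, b2, hq, hs⟩ := sep m e.val s t hlt
  have hs' := hs hg
  have d0 := pt_d0 hn s t x y
  have d1 := pt_d1 hn s t x y
  have d2 := pt_d2 hn s t x y
  set D := dist (pt n s x) (pt n t y) with hD
  have q0 := hq 0
  have q1 := hq 1
  have A0 : 0 ≤ α * (X 0 t - X 0 s) + β * (Y 0 t - Y 0 s) := by linarith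
  have A1 : 0 ≤ α * (X 1 t - X 1 s) + β * (Y 1 t - Y 1 s) := by linarith
  have hpm : (0 : ℝ) ≤ (6 / 25 : ℝ) ^ m := by positivity
  have main : (1 : ℝ) / 3 * (1 / 100 * (6 / 25 : ℝ) ^ m)
      ≤ (1 - x) * (α * (X 1 t - X 1 s) + β * (Y 1 t - Y 1 s))
        + x * (α * (X 0 t - X 0 s) + β * (Y 0 t - Y 0 s)) := by
    have hx0 := hx.1
    have hx1 : 0 ≤ 1 - x := by linarith [hx.2]
    have p0 := mul_nonneg hx0 A0
    have p1 := mul_nonneg hx1 A1
    fin_cases e
    · simp only [Reg] at hr
      have hr' : 1 / 3 ≤ x := by simpa using hr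
      have h2 : 1 / 100 * (6 / 25 : ℝ) ^ m ≤ α * (X 0 t - X 0 s) + β * (Y 0 t - Y 0 s) := by
        simp only at hs'
        linarith
      have h3 := mul_le_mul hr' h2 (by positivity) hx0
      linarith
    · simp only [Reg] at hr
      have hr' : x ≤ 2 / 3 := by simpa using hr
      have h2 : 1 / 100 * (6 / 25 : ℝ) ^ m ≤ α * (X 1 t - X 1 s) + β * (Y 1 t - Y 1 s) := by
        simp only at hs'
        linarith
      have h4 : (1 : ℝ) / 3 ≤ 1 - x := by linarith
      have h3 := mul_le_mul h4 h2 (by positivity) hx1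
      linarith
  have id1 : (1 - x) * (α * (X 1 t - X 1 s) + β * (Y 1 t - Y 1 s))
        + x * (α * (X 0 t - X 0 s) + β * (Y 0 t - Y 0 s))
      = α * (((1 - y) * X 1 t + y * X 0 t) - ((1 - x) * X 1 s + x * X 0 s))
        + β * (((1 - y) * Y 1 t + y * Y 0 t) - ((1 - x) * Y 1 s + x * Y 0 s))
        + (x - y) * (α * (X 0 t - X 1 t) + β * (Y 0 t - Y 1 t)) := by ring
  have e1 : α * (((1 - y) * X 1 t + y * X 0 t) - ((1 - x) * X 1 s + x * X 0 s)) ≤ D := by
    have h1 : ((1 - y) * X 1 t + y * X 0 t) - ((1 - x) * X 1 s + x * X 0 s) ≤ D := by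
      have := (abs_le.1 d1).1; linarith
    have hD0 : 0 ≤ D := dist_nonneg
    nlinarith
  have e2 : β * (((1 - y) * Y 1 t + y * Y 0 t) - ((1 - x) * Y 1 s + x * Y 0 s)) ≤ D := by
    have h1 : ((1 - y) * Y 1 t + y * Y 0 t) - ((1 - x) * Y 1 s + x * Y 0 s) ≤ D := by
      have := (abs_le.1 d2).1; linarith
    have hD0 : 0 ≤ D := dist_nonneg
    nlinarith
  have e3 : (x - y) * (α * (X 0 t - X 1 t) + β * (Y 0 t - Y 1 t)) ≤ 2 * D := by
    have c1 : |X 0 t - X 1 t| ≤ 1 := by
      rw [abs_le]; constructor <;> linarith [(X_bd 0 t).1, (X_bd 0 t).2, (X_bd 1 t).1, (X_bd 1 t).2]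
    have c2 : |Y 0 t - Y 1 t| ≤ 1 := by
      rw [abs_le]; constructor <;> linarith [(Y_bd 0 t).1, (Y_bd 0 t).2, (Y_bd 1 t).1, (Y_bd 1 t).2]
    have c3 : |α * (X 0 t - X 1 t) + β * (Y 0 t - Y 1 t)| ≤ 2 := by
      calc |α * (X 0 t - X 1 t) + β * (Y 0 t - Y 1 t)|
          ≤ |α * (X 0 t - X 1 t)| + |β * (Y 0 t - Y 1 t)| := abs_add_le _ _
        _ = |α| * |X 0 t - X 1 t| + |β| * |Y 0 t - Y 1 t| := by rw [abs_mul, abs_mul]
        _ ≤ 1 * 1 + 1 * 1 := by
            have : |α| ≤ 1 := by rw [abs_le]; constructor <;> linarith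
            have : |β| ≤ 1 := by rw [abs_le]; constructor <;> linarith
            gcongr
        _ = 2 := by norm_num
    calc (x - y) * (α * (X 0 t - X 1 t) + β * (Y 0 t - Y 1 t))
        ≤ |(x - y) * (α * (X 0 t - X 1 t) + β * (Y 0 t - Y 1 t))| := le_abs_self _
      _ = |x - y| * |α * (X 0 t - X 1 t) + β * (Y 0 t - Y 1 t)| := abs_mul _ _
      _ ≤ D * 2 := by
          have hD0 : 0 ≤ D := dist_nonneg
          gcongr
      _ = 2 * D := by ring
  linarith

theorem pt_sep (hn : 3 ≤ n) (e : Fin 2) (m : ℕ) (s t : Sq) (x y : ℝ) (hx : x ∈ Icc (0 : ℝ) 1)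
    (hy : y ∈ Icc (0 : ℝ) 1) (hrx : Reg e x) (hry : Reg e y)
    (hg : (idx m s + e.val) / 2 ≠ (idx m t + e.val) / 2) :
    (6 / 25 : ℝ) ^ m / 1200 ≤ dist (pt n s x) (pt n t y) := by
  rcases lt_trichotomy (idx m s) (idx m t) with h | h | h
  · exact sep_aux hn e m s t x y hx hrx h hg
  · exact absurd (by rw [h]) hg
  · rw [dist_comm]
    exact sep_aux hn e m t s y x hy hry h (Ne.symm hg)

theorem pt_lip (hn : 3 ≤ n) (s t : Sq) (x y : ℝ) (hx : x ∈ Icc (0 : ℝ) 1)
    (hy : y ∈ Icc (0 : ℝ) 1) : |val s - val t| ≤ 12000 * dist (pt n s x) (pt n t y) := by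
  have hb : |val s - val t| ≤ 1 := by
    rw [abs_le]
    constructor <;> linarith [val_nonneg s, val_nonneg t, val_le_one s, val_le_one t]
  have hcase : (∃ e : Fin 2, Reg e x ∧ Reg e y) ∨ 1 / 3 ≤ |x - y| := by
    by_cases h1 : 1 / 3 ≤ x ∧ 1 / 3 ≤ y
    · exact Or.inl ⟨0, by simpa [Reg] using h1.1, by simpa [Reg] using h1.2⟩
    · by_cases h2 : x ≤ 2 / 3 ∧ y ≤ 2 / 3
      · exact Or.inl ⟨1, by simpa [Reg] using h2.1, by simpa [Reg] using h2.2⟩
      · right
        rcases le_total x y with hxy | hxy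
        · rw [abs_of_nonpos (by linarith)]
          have hx3 : x < 1 / 3 := by
            by_contra hc; exact h1 ⟨by linarith, by linarith⟩
          have hy3 : 2 / 3 < y := by
            by_contra hc; exact h2 ⟨by linarith, by linarith⟩
          linarith
        · rw [abs_of_nonneg (by linarith)]
          have hx3 : y < 1 / 3 := by
            by_contra hc; exact h1 ⟨by linarith, by linarith⟩
          have hy3 : 2 / 3 < x := by
            by_contra hc; exact h2 ⟨by linarith, by linarith⟩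
          linarith
  rcases hcase with ⟨e, hrx, hry⟩ | h
  · by_cases hall : ∀ m, (idx m s + e.val) / 2 = (idx m t + e.val) / 2
    · have hz : |val s - val t| ≤ 0 := by
        have hlim : Tendsto (fun m : ℕ => (2 : ℝ) / 5 ^ m) atTop (𝓝 0) := by
          have h1 : Tendsto (fun m : ℕ => (2 : ℝ) * (1 / 5) ^ m) atTop (𝓝 (2 * 0)) :=
            (tendsto_pow_atTop_nhds_zero_of_lt_one (by norm_num) (by norm_num)).const_mul _
          rw [mul_zero] at h1
          refine h1.congr (fun m => ?_)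
          rw [div_pow, one_pow]; ring
        exact ge_of_tendsto' hlim (fun m => val_close (hall m))
      have : 0 ≤ 12000 * dist (pt n s x) (pt n t y) := by positivity
      linarith
    · push Not at hall
      classical
      have hf := Nat.find_spec hall
      set m := Nat.find hall with hm
      have hm0 : m ≠ 0 := by
        intro hc
        rw [hc] at hf
        simp [idx] at hf
      obtain ⟨k, hk⟩ := Nat.exists_eq_succ_of_ne_zero hm0
      have hprev : (idx k s + e.val) / 2 = (idx k t + e.val) / 2 := by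
        by_contra hc
        have := Nat.find_min hall (m := k) (by omega)
        exact this hc
      have h1 := val_close hprev
      have h2 := pt_sep hn e m s t x y hx hy hrx hry hf
      rw [hk, Nat.succ_eq_add_one] at h2
      have h3 : (1 / 5 : ℝ) ^ (k + 1) ≤ (6 / 25 : ℝ) ^ (k + 1) :=
        pow_le_pow_left₀ (by norm_num) (by norm_num) _
      have h4 : (2 : ℝ) / 5 ^ k = 12000 * ((1 / 5 : ℝ) ^ (k + 1) / 1200) := by
        rw [pow_succ, div_pow, one_pow]
        field_simp
        norm_num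
      calc |val s - val t| ≤ 2 / 5 ^ k := h1
        _ = 12000 * ((1 / 5 : ℝ) ^ (k + 1) / 1200) := h4
        _ ≤ 12000 * ((6 / 25 : ℝ) ^ (k + 1) / 1200) := by gcongr
        _ ≤ 12000 * dist (pt n s x) (pt n t y) := by gcongr
  · have d0 := pt_d0 hn s t x y
    linarith

/-- the compact connected set -/
def Kset (n : ℕ) : Set (EuclideanSpace ℝ (Fin n)) :=
  (fun z : Sq × ℝ => pt n z.1 z.2) '' (univ ×ˢ Icc (0 : ℝ) 1)

lemma X_cont (q : ℕ) : Continuous (fun s : Sq => X q s) := ser_cont good_x q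
lemma Y_cont (q : ℕ) : Continuous (fun s : Sq => Y q s) := ser_cont good_y q

lemma pt_cont (n : ℕ) : Continuous (fun z : Sq × ℝ => pt n z.1 z.2) := by
  unfold pt
  refine (PiLp.continuous_toLp 2 _).comp ?_
  refine continuous_pi (fun i => ?_)
  have c0 := (X_cont 0).comp (continuous_fst (X := Sq) (Y := ℝ))
  have c1 := (X_cont 1).comp (continuous_fst (X := Sq) (Y := ℝ))
  have c2 := (Y_cont 0).comp (continuous_fst (X := Sq) (Y := ℝ))
  have c3 := (Y_cont 1).comp (continuous_fst (X := Sq) (Y := ℝ))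
  simp only [Function.comp_def] at c0 c1 c2 c3
  split_ifs
  · exact continuous_snd
  · exact ((continuous_const.sub continuous_snd).mul c1).add (continuous_snd.mul c0)
  · exact ((continuous_const.sub continuous_snd).mul c3).add (continuous_snd.mul c2)
  · exact continuous_const

theorem K_compact (n : ℕ) : IsCompact (Kset n) :=
  (isCompact_univ.prod isCompact_Icc).image (pt_cont n)

/-! ### connectedness -/

lemma X_mod (q : ℕ) (s : Sq) : X q s = X (q % 2) s := by
  unfold X
  refine pre_mod_ser (fun q a => ?_) q s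
  unfold wx
  rw [wxi_mod]

lemma Y_mod (q : ℕ) (s : Sq) : Y q s = Y (q % 2) s := by
  unfold Y
  refine pre_mod_ser (fun q a => ?_) q s
  unfold wy
  rw [wyi_mod]

lemma X_four (q : ℕ) (s : Sq) (h : ∀ i, s i = 4) : X q s = 1 ∧ Y q s = 1 := by
  have hs : sh s = s := by funext i; unfold sh; rw [h, h]
  have e1 := X_rec q s
  have e2 := Y_rec q s
  have h4 : ((4 : Fin 5) : ℕ) = 4 := rfl
  rw [h 0, hs, h4, X_mod (q + 4), show (q + 4) % 2 = q % 2 by omega, ← X_mod, (w4 q).1] at e1
  rw [h 0, hs, h4, Y_mod (q + 4), show (q + 4) % 2 = q % 2 by omega, ← Y_mod, (w4 q).2] at e2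
  constructor <;> linarith

lemma X_zero (q : ℕ) (s : Sq) (h : ∀ i, s i = 0) : X q s = 0 ∧ Y q s = 0 := by
  have hs : sh s = s := by funext i; unfold sh; rw [h, h]
  have e1 := X_rec q s
  have e2 := Y_rec q s
  have h4 : ((0 : Fin 5) : ℕ) = 0 := rfl
  rw [h 0, hs, h4, add_zero, (w0 q).1] at e1
  rw [h 0, hs, h4, add_zero, (w0 q).2] at e2
  constructor <;> linarith

/-- adjacent sequences -/
def Adj (k : ℕ) (s t : Sq) : Prop :=
  (∀ i < k, s i = t i) ∧ (t k : ℕ) = (s k : ℕ) + 1 ∧ (∀ i, k < i → s i = 4) ∧ (∀ i, k < i → t i = 0)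

lemma adj_glue (k : ℕ) : ∀ (q : ℕ) (s t : Sq), Adj k s t → (q + pre s (k + 1)) % 2 = 0 →
    X q s = X q t ∧ Y q s = Y q t := by
  induction k with
  | zero =>
    intro q s t h hq
    obtain ⟨-, h1, h2, h3⟩ := h
    have hq' : (q + (s 0 : ℕ)) % 2 = 0 := by simpa [pre] using hq
    have hlt : s 0 < t 0 := by
      rw [Fin.lt_def]; omega
    obtain ⟨f, hf⟩ := tab (s 0) (t 0) hlt
    have hw := (hf q).2.2 ⟨h1, hq'⟩
    have a1 := X_four (q + (s 0 : ℕ)) (sh s) (fun i => h2 (i + 1) (by omega))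
    have a2 := X_zero (q + (t 0 : ℕ)) (sh t) (fun i => h3 (i + 1) (by omega))
    have w1 : (wxi q (t 0) : ℝ) = (wxi q (s 0) : ℝ) + 6 := by exact_mod_cast hw.1
    have w2 : (wyi q (t 0) : ℝ) = (wyi q (s 0) : ℝ) + 6 := by exact_mod_cast hw.2
    rw [X_rec q s, X_rec q t, Y_rec q s, Y_rec q t, a1.1, a1.2, a2.1, a2.2]
    unfold wx wy
    rw [w1, w2]
    constructor <;> ring
  | succ k ih =>
    intro q s t h hq
    obtain ⟨h0, h1, h2, h3⟩ := h
    have e0 : s 0 = t 0 := h0 0 (by omega)
    have hadj : Adj k (sh s) (sh t) :=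
      ⟨fun i hi => h0 (i + 1) (by omega), h1, fun i hi => h2 (i + 1) (by omega),
        fun i hi => h3 (i + 1) (by omega)⟩
    have := ih (q + (s 0 : ℕ)) (sh s) (sh t) hadj (by
      rw [pre_succ'] at hq
      omega)
    rw [X_rec q s, X_rec q t, Y_rec q s, Y_rec q t, ← e0, this.1, this.2]
    exact ⟨rfl, rfl⟩

lemma adj_pt (n : ℕ) {k : ℕ} {s t : Sq} (h : Adj k s t) : ∃ x ∈ Icc (0 : ℝ) 1, pt n s x = pt n t x := by
  rcases Nat.mod_two_eq_zero_or_one (pre s (k + 1)) with hp | hp
  · obtain ⟨h1, h2⟩ := adj_glue k 0 s t h (by omega)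
    refine ⟨1, by simp, ?_⟩
    unfold pt
    rw [h1, h2]
    simp
  · obtain ⟨h1, h2⟩ := adj_glue k 1 s t h (by omega)
    refine ⟨0, by simp, ?_⟩
    unfold pt
    rw [h1, h2]
    simp

lemma prefix_of_cont (F : Sq → Bool) (hF : Continuous F) :
    ∃ m : ℕ, ∀ s t : Sq, (∀ i < m, s i = t i) → F s = F t := by
  by_contra hc
  push Not at hc
  choose s t hst hne using hc
  obtain ⟨a, -, φ, hφ, ha⟩ := isCompact_univ.tendsto_subseq (x := s) (fun _ => mem_univ _)
  have hb : Tendsto (t ∘ φ) atTop (𝓝 a) := by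
    rw [tendsto_pi_nhds] at ha ⊢
    intro i
    refine (ha i).congr' ?_
    filter_upwards [eventually_gt_atTop i] with k hk
    exact hst (φ k) i (lt_of_lt_of_le hk (hφ.id_le k))
  have h1 : ∀ᶠ k in atTop, F (s (φ k)) = F a := by
    have : Tendsto (fun k => F (s (φ k))) atTop (𝓝 (F a)) := (hF.tendsto a).comp ha
    rw [nhds_discrete, tendsto_pure] at this
    exact this
  have h2 : ∀ᶠ k in atTop, F (t (φ k)) = F a := by
    have : Tendsto (fun k => F (t (φ k))) atTop (𝓝 (F a)) := (hF.tendsto a).comp hb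
    rw [nhds_discrete, tendsto_pure] at this
    exact this
  obtain ⟨k, hk1, hk2⟩ := (h1.and h2).exists
  exact hne (φ k) (by rw [hk1, hk2])

lemma const_of_adj (F : Sq → Bool) (hadj : ∀ k s t, Adj k s t → F s = F t) :
    ∀ m : ℕ, (∀ s t : Sq, (∀ i < m, s i = t i) → F s = F t) → ∀ s t : Sq, F s = F t := by
  intro m
  induction m with
  | zero => intro h s t; exact h s t (by simp)
  | succ m ih =>
    intro h
    apply ih
    intro s t hst
    -- change of one digit
    have key : ∀ (u : Sq) (v : ℕ) (hv : v < 5), F u = F (Function.update u m ⟨v, hv⟩) := by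
      -- first: from digit v+1 to digit v
      have step : ∀ (u : Sq) (v : ℕ) (hv : v + 1 < 5),
          F (Function.update u m ⟨v + 1, hv⟩) = F (Function.update u m ⟨v, by omega⟩) := by
        intro u v hv
        let p : Sq := fun i => if i < m then u i else if i = m then ⟨v, by omega⟩ else 4
        let q : Sq := fun i => if i < m then u i else if i = m then ⟨v + 1, hv⟩ else 0
        have hpq : Adj m p q := by
          refine ⟨fun i hi => ?_, ?_, fun i hi => ?_, fun i hi => ?_⟩
          · simp only [p, q, if_pos hi]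
          · simp [p, q]
          · simp only [p]; rw [if_neg (by omega), if_neg (by omega)]
          · simp only [q]; rw [if_neg (by omega), if_neg (by omega)]
        have e1 : F (Function.update u m ⟨v, by omega⟩) = F p := by
          apply h
          intro i hi
          by_cases him : i = m
          · subst him; simp [p]
          · have : i < m := by omega
            simp [p, this, Function.update_of_ne him]
        have e2 : F (Function.update u m ⟨v + 1, hv⟩) = F q := by
          apply h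
          intro i hi
          by_cases him : i = m
          · subst him; simp [q]
          · have : i < m := by omega
            simp [q, this, Function.update_of_ne him]
        rw [e1, e2, hadj m p q hpq]
      have all0 : ∀ (u : Sq) (v : ℕ) (hv : v < 5),
          F (Function.update u m ⟨v, hv⟩) = F (Function.update u m ⟨0, by norm_num⟩) := by
        intro u v
        induction v with
        | zero => intro hv; rfl
        | succ v ihv => intro hv; rw [step u v hv]; exact ihv (by omega)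
      intro u v hv
      have h1 : Function.update u m (u m) = u := Function.update_eq_self m u
      have h2 : F (Function.update u m (u m)) = F (Function.update u m ⟨0, by norm_num⟩) :=
        all0 u (u m).val (u m).isLt
      rw [h1] at h2
      rw [h2, all0 u v hv]
    rw [key s (t m).val (t m).isLt]
    apply h
    intro i hi
    by_cases him : i = m
    · subst him; simp
    · rw [Function.update_of_ne him]; exact hst i (by omega)

theorem K_connected (n : ℕ) : IsConnected (Kset n) := by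
  refine ⟨⟨pt n (fun _ => 0) 0, ⟨(fun _ => 0, 0), by simp, rfl⟩⟩, ?_⟩
  refine isPreconnected_of_forall_constant ?_
  intro f hf z hz w hw
  have hmem : ∀ (s : Sq) (x : ℝ), x ∈ Icc (0 : ℝ) 1 → pt n s x ∈ Kset n := by
    intro s x hx
    exact ⟨(s, x), ⟨mem_univ _, hx⟩, rfl⟩
  have hstrand : ∀ (s : Sq) (x y : ℝ), x ∈ Icc (0 : ℝ) 1 → y ∈ Icc (0 : ℝ) 1 →
      f (pt n s x) = f (pt n s y) := by
    intro s x y hx hy
    have hc : ContinuousOn (fun x : ℝ => f (pt n s x)) (Icc 0 1) := by
      have h1 : Continuous (fun x : ℝ => pt n s x) :=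
        (pt_cont n).comp (continuous_const.prodMk continuous_id)
      exact hf.comp h1.continuousOn (fun x hx => hmem s x hx)
    exact (isPreconnected_Icc (a := (0 : ℝ)) (b := 1)).constant hc hx hy
  have hF : Continuous (fun s : Sq => f (pt n s 0)) := by
    have h1 : Continuous (fun s : Sq => pt n s 0) :=
      (pt_cont n).comp (continuous_id.prodMk continuous_const)
    exact hf.comp_continuous h1 (fun s => hmem s 0 (by simp))
  obtain ⟨m, hm⟩ := prefix_of_cont _ hF
  have hconst := const_of_adj (fun s : Sq => f (pt n s 0)) (by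
    intro k s t hst
    obtain ⟨x, hx, he⟩ := adj_pt n hst
    show f (pt n s 0) = f (pt n t 0)
    rw [hstrand s 0 x (by simp) hx, hstrand t 0 x (by simp) hx, he]) m hm
  obtain ⟨⟨s, x⟩, ⟨-, hx⟩, rfl⟩ := hz
  obtain ⟨⟨t, y⟩, ⟨-, hy⟩, rfl⟩ := hw
  show f (pt n s x) = f (pt n t y)
  rw [hstrand s x 0 hx (by simp), hstrand t y 0 hy (by simp)]
  exact hconst s t

end R380.Exc
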