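import Mathlib

/-!
Symbolic part: two self-similar plane images of the sequences of five digits, in which the pairs
`w a 4 4 4 ...`, `w (a+1) 0 0 0 ...` are glued according to the parity of the digit sum of `w a`.
-/

namespace R380.Exc

/-- sequences of five digits -/
abbrev Sq := ℕ → Fin 5

/-- the shift -/
def sh (s : Sq) : Sq := fun i => s (i + 1)

/-- first coordinate of the offset (times 25) of the cell `a`, in a block of parity `q` -/
def wxi (q : ℕ) (a : Fin 5) : ℤ :=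
  if q % 2 = 0 then ![0, 6, 0, 6, 19] a else ![0, 0, 6, 13, 19] a

/-- second coordinate of the offset (times 25) of the cell `a`, in a block of parity `q` -/
def wyi (q : ℕ) (a : Fin 5) : ℤ :=
  if q % 2 = 0 then ![0, 6, 13, 19, 19] a else ![0, 13, 19, 13, 19] a

noncomputable def wx (q : ℕ) (a : Fin 5) : ℝ := (wxi q a : ℝ) / 25
noncomputable def wy (q : ℕ) (a : Fin 5) : ℝ := (wyi q a : ℝ) / 25

/-- sum of the first digits -/
def pre (s : Sq) (i : ℕ) : ℕ := ∑ j ∈ Finset.range i, (s j : ℕ)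

/-- the series with weights `w` -/
noncomputable def ser (w : ℕ → Fin 5 → ℝ) (q : ℕ) (s : Sq) : ℝ :=
  ∑' i, (6 / 25 : ℝ) ^ i * w (q + pre s i) (s i)

/-- weights between `0` and `19/25` -/
def Good (w : ℕ → Fin 5 → ℝ) : Prop := ∀ q a, 0 ≤ w q a ∧ w q a ≤ 19 / 25

lemma par (q : ℕ) : q % 2 = 0 ∨ q % 2 = 1 := Nat.mod_two_eq_zero_or_one q

lemma wxi_mod (q : ℕ) (a : Fin 5) : wxi q a = wxi (q % 2) a := by
  unfold wxi; simp

lemma wyi_mod (q : ℕ) (a : Fin 5) : wyi q a = wyi (q % 2) a := by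
  unfold wyi; simp

lemma good_x : Good wx := by
  intro q a
  have h : ∀ q : Fin 2, ∀ a : Fin 5, 0 ≤ wxi q.val a ∧ wxi q.val a ≤ 19 := by decide
  have := h ⟨q % 2, Nat.mod_lt _ (by norm_num)⟩ a
  simp only [← wxi_mod q a] at this
  unfold wx
  have h1 : (0 : ℝ) ≤ (wxi q a : ℝ) := by exact_mod_cast this.1
  have h2 : (wxi q a : ℝ) ≤ 19 := by exact_mod_cast this.2
  constructor <;> linarith

lemma good_y : Good wy := by
  intro q a
  have h : ∀ q : Fin 2, ∀ a : Fin 5, 0 ≤ wyi q.val a ∧ wyi q.val a ≤ 19 := by decide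
  have := h ⟨q % 2, Nat.mod_lt _ (by norm_num)⟩ a
  simp only [← wyi_mod q a] at this
  unfold wy
  have h1 : (0 : ℝ) ≤ (wyi q a : ℝ) := by exact_mod_cast this.1
  have h2 : (wyi q a : ℝ) ≤ 19 := by exact_mod_cast this.2
  constructor <;> linarith

lemma term_bd {w : ℕ → Fin 5 → ℝ} (hw : Good w) (q : ℕ) (s : Sq) (i : ℕ) :
    0 ≤ (6 / 25 : ℝ) ^ i * w (q + pre s i) (s i) ∧
      (6 / 25 : ℝ) ^ i * w (q + pre s i) (s i) ≤ (6 / 25 : ℝ) ^ i * (19 / 25) := by
  have h := hw (q + pre s i) (s i)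
  have hp : (0 : ℝ) ≤ (6 / 25 : ℝ) ^ i := by positivity
  exact ⟨mul_nonneg hp h.1, mul_le_mul_of_nonneg_left h.2 hp⟩

lemma summ_geo : Summable (fun i : ℕ => (6 / 25 : ℝ) ^ i * (19 / 25)) :=
  (summable_geometric_of_lt_one (by norm_num) (by norm_num)).mul_right _

lemma ser_summable {w : ℕ → Fin 5 → ℝ} (hw : Good w) (q : ℕ) (s : Sq) :
    Summable (fun i : ℕ => (6 / 25 : ℝ) ^ i * w (q + pre s i) (s i)) :=
  Summable.of_nonneg_of_le (fun i => (term_bd hw q s i).1) (fun i => (term_bd hw q s i).2) summ_geo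

lemma ser_nonneg {w : ℕ → Fin 5 → ℝ} (hw : Good w) (q : ℕ) (s : Sq) : 0 ≤ ser w q s :=
  tsum_nonneg (fun i => (term_bd hw q s i).1)

lemma ser_le_one {w : ℕ → Fin 5 → ℝ} (hw : Good w) (q : ℕ) (s : Sq) : ser w q s ≤ 1 := by
  have h1 : ser w q s ≤ ∑' i : ℕ, (6 / 25 : ℝ) ^ i * (19 / 25) :=
    (ser_summable hw q s).tsum_le_tsum (fun i => (term_bd hw q s i).2) summ_geo
  have h2 : ∑' i : ℕ, (6 / 25 : ℝ) ^ i * (19 / 25) = 1 := by
    rw [tsum_mul_right, tsum_geometric_of_lt_one (by norm_num) (by norm_num)]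
    norm_num
  linarith

lemma pre_succ' (s : Sq) (i : ℕ) : pre s (i + 1) = (s 0 : ℕ) + pre (sh s) i := by
  unfold pre sh
  rw [Finset.sum_range_succ']
  ring

lemma ser_rec {w : ℕ → Fin 5 → ℝ} (hw : Good w) (q : ℕ) (s : Sq) :
    ser w q s = w q (s 0) + 6 / 25 * ser w (q + (s 0 : ℕ)) (sh s) := by
  unfold ser
  rw [(ser_summable hw q s).tsum_eq_zero_add]
  congr 1
  · simp [pre]
  · rw [← tsum_mul_left]
    congr 1
    funext i
    rw [pre_succ' s i, show q + ((s 0 : ℕ) + pre (sh s) i) = q + (s 0 : ℕ) + pre (sh s) i by ring]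
    rw [pow_succ]
    have : s (i + 1) = sh s i := rfl
    rw [this]
    ring

lemma pre_mod_ser {w : ℕ → Fin 5 → ℝ} (hm : ∀ q a, w q a = w (q % 2) a) (q : ℕ) (s : Sq) :
    ser w q s = ser w (q % 2) s := by
  unfold ser
  congr 1
  funext i
  rw [hm (q + pre s i), hm (q % 2 + pre s i)]
  congr 2
  omega

lemma cont_dig (i : ℕ) : Continuous (fun s : Sq => s i) := continuous_apply i

lemma cont_pre (i : ℕ) : Continuous (fun s : Sq => pre s i) := by
  unfold pre
  refine continuous_finsetSum _ (fun j _ => ?_)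
  exact (continuous_of_discreteTopology (f := fun a : Fin 5 => (a : ℕ))).comp (cont_dig j)

lemma ser_cont {w : ℕ → Fin 5 → ℝ} (hw : Good w) (q : ℕ) : Continuous (fun s : Sq => ser w q s) := by
  unfold ser
  refine continuous_tsum (u := fun i : ℕ => (6 / 25 : ℝ) ^ i * (19 / 25)) (fun i => ?_) summ_geo ?_
  · refine continuous_const.mul ?_
    have h1 : Continuous (fun s : Sq => (pre s i, s i)) := (cont_pre i).prodMk (cont_dig i)
    exact (continuous_of_discreteTopology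
      (f := fun z : ℕ × Fin 5 => w (q + z.1) z.2)).comp h1
  · intro i s
    rw [Real.norm_eq_abs, abs_of_nonneg (term_bd hw q s i).1]
    exact (term_bd hw q s i).2

/-! ### base five value -/

noncomputable def val (s : Sq) : ℝ := ∑' i, (1 / 5 : ℝ) ^ (i + 1) * ((s i : ℕ) : ℝ)

lemma val_term (s : Sq) (i : ℕ) : 0 ≤ (1 / 5 : ℝ) ^ (i + 1) * ((s i : ℕ) : ℝ) ∧
    (1 / 5 : ℝ) ^ (i + 1) * ((s i : ℕ) : ℝ) ≤ (1 / 5 : ℝ) ^ i * (4 / 5) := by
  have h4 : ((s i : ℕ) : ℝ) ≤ 4 := by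
    have := (s i).isLt
    exact_mod_cast (by omega : (s i : ℕ) ≤ 4)
  have hp : (0 : ℝ) ≤ (1 / 5 : ℝ) ^ (i + 1) := by positivity
  refine ⟨by positivity, ?_⟩
  calc (1 / 5 : ℝ) ^ (i + 1) * ((s i : ℕ) : ℝ) ≤ (1 / 5 : ℝ) ^ (i + 1) * 4 :=
        mul_le_mul_of_nonneg_left h4 hp
    _ = (1 / 5 : ℝ) ^ i * (4 / 5) := by rw [pow_succ]; ring

lemma summ_geo5 : Summable (fun i : ℕ => (1 / 5 : ℝ) ^ i * (4 / 5)) :=
  (summable_geometric_of_lt_one (by norm_num) (by norm_num)).mul_right _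

lemma val_summable (s : Sq) : Summable (fun i : ℕ => (1 / 5 : ℝ) ^ (i + 1) * ((s i : ℕ) : ℝ)) :=
  Summable.of_nonneg_of_le (fun i => (val_term s i).1) (fun i => (val_term s i).2) summ_geo5

lemma val_nonneg (s : Sq) : 0 ≤ val s := tsum_nonneg (fun i => (val_term s i).1)

lemma val_le_one (s : Sq) : val s ≤ 1 := by
  have h1 : val s ≤ ∑' i : ℕ, (1 / 5 : ℝ) ^ i * (4 / 5) :=
    (val_summable s).tsum_le_tsum (fun i => (val_term s i).2) summ_geo5
  have h2 : ∑' i : ℕ, (1 / 5 : ℝ) ^ i * (4 / 5) = 1 := by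
    rw [tsum_mul_right, tsum_geometric_of_lt_one (by norm_num) (by norm_num)]
    norm_num
  linarith

lemma val_rec (s : Sq) : val s = ((s 0 : ℕ) : ℝ) / 5 + val (sh s) / 5 := by
  unfold val
  rw [(val_summable s).tsum_eq_zero_add]
  congr 1
  · simp; ring
  · rw [← tsum_div_const]
    congr 1
    funext i
    have : s (i + 1) = sh s i := rfl
    rw [this, pow_succ]
    ring

/-- the number of the level `m` cell -/
def idx : ℕ → Sq → ℕ
  | 0, _ => 0
  | (m + 1), s => (s 0 : ℕ) * 5 ^ m + idx m (sh s)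

lemma idx_lt (m : ℕ) (s : Sq) : idx m s < 5 ^ m := by
  induction m generalizing s with
  | zero => simp [idx]
  | succ m ih =>
    have h1 := ih (sh s)
    have h2 : (s 0 : ℕ) ≤ 4 := by have := (s 0).isLt; omega
    have h3 : (s 0 : ℕ) * 5 ^ m ≤ 4 * 5 ^ m := Nat.mul_le_mul_right _ h2
    simp only [idx]
    rw [pow_succ]
    omega

lemma val_idx (m : ℕ) (s : Sq) : (idx m s : ℝ) ≤ 5 ^ m * val s ∧ 5 ^ m * val s ≤ idx m s + 1 := by
  induction m generalizing s with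
  | zero => simp [idx, val_nonneg, val_le_one]
  | succ m ih =>
    have h := ih (sh s)
    have e : (5 : ℝ) ^ (m + 1) * val s = ((s 0 : ℕ) : ℝ) * 5 ^ m + 5 ^ m * val (sh s) := by
      rw [val_rec s, pow_succ]; ring
    have e2 : ((idx (m + 1) s : ℕ) : ℝ) = ((s 0 : ℕ) : ℝ) * 5 ^ m + idx m (sh s) := by
      simp only [idx]; push_cast; ring
    rw [e, e2]
    constructor <;> linarith [h.1, h.2]

lemma val_close {m : ℕ} {e : ℕ} {s t : Sq} (h : (idx m s + e) / 2 = (idx m t + e) / 2) :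
    |val s - val t| ≤ 2 / 5 ^ m := by
  have h1 := val_idx m s
  have h2 := val_idx m t
  have hd : (idx m s : ℝ) ≤ idx m t + 1 ∧ (idx m t : ℝ) ≤ idx m s + 1 := by
    constructor
    · have : idx m s ≤ idx m t + 1 := by omega
      exact_mod_cast this
    · have : idx m t ≤ idx m s + 1 := by omega
      exact_mod_cast this
  have hp : (0 : ℝ) < 5 ^ m := by positivity
  rw [abs_le]
  constructor
  · rw [neg_le_iff_add_nonneg]
    have : 0 ≤ 5 ^ m * (val s - val t + 2 / 5 ^ m) := by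
      have e : (5 : ℝ) ^ m * (val s - val t + 2 / 5 ^ m) = 5 ^ m * val s - 5 ^ m * val t + 2 := by
        field_simp
      rw [e]; linarith [h1.1, h2.2, hd.2]
    exact nonneg_of_mul_nonneg_right this hp
  · rw [le_div_iff₀ hp]
    have e : (val s - val t) * (5 : ℝ) ^ m = 5 ^ m * val s - 5 ^ m * val t := by ring
    rw [e]; linarith [h1.2, h2.1, hd.1]

/-! ### separation -/

noncomputable def X (q : ℕ) (s : Sq) : ℝ := ser wx q s
noncomputable def Y (q : ℕ) (s : Sq) : ℝ := ser wy q s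

lemma X_rec (q : ℕ) (s : Sq) : X q s = wx q (s 0) + 6 / 25 * X (q + (s 0 : ℕ)) (sh s) :=
  ser_rec good_x q s

lemma Y_rec (q : ℕ) (s : Sq) : Y q s = wy q (s 0) + 6 / 25 * Y (q + (s 0 : ℕ)) (sh s) :=
  ser_rec good_y q s

lemma X_bd (q : ℕ) (s : Sq) : 0 ≤ X q s ∧ X q s ≤ 1 := ⟨ser_nonneg good_x q s, ser_le_one good_x q s⟩
lemma Y_bd (q : ℕ) (s : Sq) : 0 ≤ Y q s ∧ Y q s ≤ 1 := ⟨ser_nonneg good_y q s, ser_le_one good_y q s⟩

/-- the coefficients of the three functionals -/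
def cA : Fin 3 → ℤ := ![1, 16, 16]
def cB : Fin 3 → ℤ := ![16, 1, 16]

def dd (f : Fin 3) (q : ℕ) (a b : Fin 5) : ℤ :=
  cA f * (wxi q b - wxi q a - 6) + cB f * (wyi q b - wyi q a - 6)

lemma tab0 : ∀ a b : Fin 5, a < b → ∃ f : Fin 3, ∀ q : Fin 2, 0 ≤ dd f q.val a b ∧
    (¬ (b.val = a.val + 1 ∧ (q.val + a.val) % 2 = 0) → 4 ≤ dd f q.val a b) ∧
    ((b.val = a.val + 1 ∧ (q.val + a.val) % 2 = 0) →
      wxi q.val b = wxi q.val a + 6 ∧ wyi q.val b = wyi q.val a + 6) := by decide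

lemma tab (a b : Fin 5) (hab : a < b) : ∃ f : Fin 3, ∀ q : ℕ, 0 ≤ dd f q a b ∧
    (¬ (b.val = a.val + 1 ∧ (q + a.val) % 2 = 0) → 4 ≤ dd f q a b) ∧
    ((b.val = a.val + 1 ∧ (q + a.val) % 2 = 0) → wxi q b = wxi q a + 6 ∧ wyi q b = wyi q a + 6) := by
  obtain ⟨f, hf⟩ := tab0 a b hab
  refine ⟨f, fun q => ?_⟩
  have h := hf ⟨q % 2, Nat.mod_lt _ (by norm_num)⟩
  have e : dd f (q % 2) a b = dd f q a b := by
    unfold dd
    rw [← wxi_mod, ← wxi_mod, ← wyi_mod, ← wyi_mod]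
  simp only at h
  rw [e, ← wxi_mod, ← wxi_mod, ← wyi_mod, ← wyi_mod] at h
  have e2 : (q % 2 + a.val) % 2 = (q + a.val) % 2 := by omega
  rw [e2] at h
  exact h

lemma cA_bd (f : Fin 3) : 1 ≤ cA f ∧ cA f ≤ 16 := by revert f; decide
lemma cB_bd (f : Fin 3) : 1 ≤ cB f ∧ cB f ≤ 16 := by revert f; decide

lemma tab4 (q : ℕ) (a : Fin 5) (ha : a ≠ 4) :
    wxi q a ≤ 19 ∧ wyi q a ≤ 19 ∧ (wxi q a ≤ 13 ∨ wyi q a ≤ 13) := by
  have h : ∀ q : Fin 2, ∀ a : Fin 5, a ≠ 4 →
      wxi q.val a ≤ 19 ∧ wyi q.val a ≤ 19 ∧ (wxi q.val a ≤ 13 ∨ wyi q.val a ≤ 13) := by decide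
  have := h ⟨q % 2, Nat.mod_lt _ (by norm_num)⟩ a ha
  simpa only [← wxi_mod q a, ← wyi_mod q a] using this

lemma tab0' (q : ℕ) (a : Fin 5) (ha : a ≠ 0) :
    0 ≤ wxi q a ∧ 0 ≤ wyi q a ∧ (6 ≤ wxi q a ∨ 6 ≤ wyi q a) := by
  have h : ∀ q : Fin 2, ∀ a : Fin 5, a ≠ 0 →
      0 ≤ wxi q.val a ∧ 0 ≤ wyi q.val a ∧ (6 ≤ wxi q.val a ∨ 6 ≤ wyi q.val a) := by decide
  have := h ⟨q % 2, Nat.mod_lt _ (by norm_num)⟩ a ha
  simpa only [← wxi_mod q a, ← wyi_mod q a] using this

lemma w4 (q : ℕ) : wx q 4 = 19 / 25 ∧ wy q 4 = 19 / 25 := by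
  unfold wx wy wxi wyi
  rcases par q with h | h <;> simp [h]

lemma w0 (q : ℕ) : wx q 0 = 0 ∧ wy q 0 = 0 := by
  unfold wx wy wxi wyi
  rcases par q with h | h <;> simp [h]

lemma top_sep {α β : ℝ} (hα : 1 / 16 ≤ α) (hβ : 1 / 16 ≤ β) (m : ℕ) (q : ℕ) (u : Sq)
    (h : idx m u + 1 ≠ 5 ^ m) : 3 / 200 * (6 / 25 : ℝ) ^ m ≤ α * (1 - X q u) + β * (1 - Y q u) := by
  induction m generalizing q u with
  | zero => simp [idx] at h
  | succ m ih =>
    have hx := X_rec q u
    have hy := Y_rec q u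
    have bx := X_bd (q + (u 0 : ℕ)) (sh u)
    have bY := Y_bd (q + (u 0 : ℕ)) (sh u)
    have hp1 : (6 / 25 : ℝ) ^ (m + 1) ≤ 1 := pow_le_one₀ (by norm_num) (by norm_num)
    by_cases h4 : u 0 = 4
    · have h' : idx m (sh u) + 1 ≠ 5 ^ m := by
        intro hc
        apply h
        simp only [idx, h4]
        rw [pow_succ]
        have : ((4 : Fin 5) : ℕ) = 4 := rfl
        rw [this]; omega
      have := ih (q + (u 0 : ℕ)) (sh u) h'
      rw [hx, hy, h4] at *
      rw [(w4 q).1, (w4 q).2] at *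
      rw [pow_succ]
      nlinarith [this]
    · have ht := tab4 q (u 0) h4
      have t1 : (wxi q (u 0) : ℝ) ≤ 19 := by exact_mod_cast ht.1
      have t2 : (wyi q (u 0) : ℝ) ≤ 19 := by exact_mod_cast ht.2.1
      have hX : 1 - X q u ≥ (19 - (wxi q (u 0) : ℝ)) / 25 := by
        rw [hx]; unfold wx; linarith [bx.2]
      have hY : 1 - Y q u ≥ (19 - (wyi q (u 0) : ℝ)) / 25 := by
        rw [hy]; unfold wy; linarith [bY.2]
      have hX0 : 0 ≤ 1 - X q u := by linarith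
      have hY0 : 0 ≤ 1 - Y q u := by linarith
      rcases ht.2.2 with t3 | t3
      · have t3' : (wxi q (u 0) : ℝ) ≤ 13 := by exact_mod_cast t3
        have : 1 - X q u ≥ 6 / 25 := by linarith
        nlinarith
      · have t3' : (wyi q (u 0) : ℝ) ≤ 13 := by exact_mod_cast t3
        have : 1 - Y q u ≥ 6 / 25 := by linarith
        nlinarith

lemma bot_sep {α β : ℝ} (hα : 1 / 16 ≤ α) (hβ : 1 / 16 ≤ β) (m : ℕ) (q : ℕ) (u : Sq)
    (h : idx m u ≠ 0) : 3 / 200 * (6 / 25 : ℝ) ^ m ≤ α * X q u + β * Y q u := by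
  induction m generalizing q u with
  | zero => simp [idx] at h
  | succ m ih =>
    have hx := X_rec q u
    have hy := Y_rec q u
    have bx := X_bd (q + (u 0 : ℕ)) (sh u)
    have bY := Y_bd (q + (u 0 : ℕ)) (sh u)
    have hp1 : (6 / 25 : ℝ) ^ (m + 1) ≤ 1 := pow_le_one₀ (by norm_num) (by norm_num)
    by_cases h4 : u 0 = 0
    · have h' : idx m (sh u) ≠ 0 := by
        intro hc
        apply h
        simp only [idx, h4, hc]
        simp
      have := ih (q + (u 0 : ℕ)) (sh u) h'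
      rw [hx, hy, h4] at *
      rw [(w0 q).1, (w0 q).2] at *
      rw [pow_succ]
      nlinarith [this]
    · have ht := tab0' q (u 0) h4
      have t1 : (0 : ℝ) ≤ (wxi q (u 0) : ℝ) := by exact_mod_cast ht.1
      have t2 : (0 : ℝ) ≤ (wyi q (u 0) : ℝ) := by exact_mod_cast ht.2.1
      have hX : X q u ≥ (wxi q (u 0) : ℝ) / 25 := by
        rw [hx]; unfold wx; linarith [bx.1]
      have hY : Y q u ≥ (wyi q (u 0) : ℝ) / 25 := by
        rw [hy]; unfold wy; linarith [bY.1]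
      have hX0 : 0 ≤ X q u := by linarith
      have hY0 : 0 ≤ Y q u := by linarith
      rcases ht.2.2 with t3 | t3
      · have t3' : (6 : ℝ) ≤ (wxi q (u 0) : ℝ) := by exact_mod_cast t3
        have : X q u ≥ 6 / 25 := by linarith
        nlinarith
      · have t3' : (6 : ℝ) ≤ (wyi q (u 0) : ℝ) := by exact_mod_cast t3
        have : Y q u ≥ 6 / 25 := by linarith
        nlinarith

theorem sep (m : ℕ) : ∀ (p : ℕ) (s t : Sq), idx m s < idx m t →
    ∃ α β : ℝ, 1 / 16 ≤ α ∧ α ≤ 1 ∧ 1 / 16 ≤ β ∧ β ≤ 1 ∧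
      (∀ q, α * X q s + β * Y q s ≤ α * X q t + β * Y q t) ∧
      ((idx m s + p) / 2 ≠ (idx m t + p) / 2 →
        α * X p s + β * Y p s + 1 / 100 * (6 / 25 : ℝ) ^ m ≤ α * X p t + β * Y p t) := by
  induction m with
  | zero => intro p s t h; simp [idx] at h
  | succ m ih =>
    intro p s t h
    have hls := idx_lt m (sh s)
    have hlt := idx_lt m (sh t)
    have hodd : 5 ^ m % 2 = 1 := by
      have : Odd (5 ^ m : ℕ) := Odd.pow (by decide)
      exact Nat.odd_iff.mp this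
    obtain ⟨k, hk⟩ : ∃ k, 5 ^ m = 2 * k + 1 := ⟨5 ^ m / 2, by omega⟩
    rcases lt_trichotomy (s 0) (t 0) with hab | hab | hab
    · obtain ⟨f, hf⟩ := tab (s 0) (t 0) hab
      have hA := cA_bd f
      have hB := cB_bd f
      have hA1 : (1 : ℝ) ≤ (cA f : ℝ) := by exact_mod_cast hA.1
      have hA2 : (cA f : ℝ) ≤ 16 := by exact_mod_cast hA.2
      have hB1 : (1 : ℝ) ≤ (cB f : ℝ) := by exact_mod_cast hB.1
      have hB2 : (cB f : ℝ) ≤ 16 := by exact_mod_cast hB.2
      -- general estimate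
      have key : ∀ q, (cA f : ℝ) / 16 * (X q t - X q s) + (cB f : ℝ) / 16 * (Y q t - Y q s)
          = (dd f q (s 0) (t 0) : ℝ) / 400
            + 6 / 25 * ((cA f : ℝ) / 16 * (X (q + (t 0 : ℕ)) (sh t) + (1 - X (q + (s 0 : ℕ)) (sh s)))
              + (cB f : ℝ) / 16 * (Y (q + (t 0 : ℕ)) (sh t) + (1 - Y (q + (s 0 : ℕ)) (sh s)))) := by
        intro q
        rw [X_rec q s, X_rec q t, Y_rec q s, Y_rec q t]
        unfold wx wy dd
        push_cast
        ring
      have pos : ∀ q, 0 ≤ ((cA f : ℝ) / 16 * (X (q + (t 0 : ℕ)) (sh t) + (1 - X (q + (s 0 : ℕ)) (sh s)))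
              + (cB f : ℝ) / 16 * (Y (q + (t 0 : ℕ)) (sh t) + (1 - Y (q + (s 0 : ℕ)) (sh s)))) := by
        intro q
        have a1 := (X_bd (q + (t 0 : ℕ)) (sh t)).1
        have a2 := (X_bd (q + (s 0 : ℕ)) (sh s)).2
        have a3 := (Y_bd (q + (t 0 : ℕ)) (sh t)).1
        have a4 := (Y_bd (q + (s 0 : ℕ)) (sh s)).2
        have b1 : 0 ≤ X (q + (t 0 : ℕ)) (sh t) + (1 - X (q + (s 0 : ℕ)) (sh s)) := by linarith
        have b2 : 0 ≤ Y (q + (t 0 : ℕ)) (sh t) + (1 - Y (q + (s 0 : ℕ)) (sh s)) := by linarith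
        positivity
      refine ⟨(cA f : ℝ) / 16, (cB f : ℝ) / 16, by linarith, by linarith, by linarith, by linarith,
        ?_, ?_⟩
      · intro q
        have h1 := key q
        have h2 := pos q
        have h3 : (0 : ℝ) ≤ (dd f q (s 0) (t 0) : ℝ) := by exact_mod_cast (hf q).1
        nlinarith
      · intro hg
        have h1 := key p
        have h2 := pos p
        have hp1 : (6 / 25 : ℝ) ^ (m + 1) ≤ 1 := pow_le_one₀ (by norm_num) (by norm_num)
        by_cases hm : (t 0).val = (s 0).val + 1 ∧ (p + (s 0).val) % 2 = 0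
        · -- merging type
          have h3 : (0 : ℝ) ≤ (dd f p (s 0) (t 0) : ℝ) := by exact_mod_cast (hf p).1
          have hor : idx m (sh s) + 1 ≠ 5 ^ m ∨ idx m (sh t) ≠ 0 := by
            by_contra hc
            push Not at hc
            apply hg
            simp only [idx]
            rw [hc.2, hm.1]
            have e1 : ((s 0 : ℕ) + 1) * 5 ^ m = (s 0 : ℕ) * 5 ^ m + 5 ^ m := by ring
            rw [e1]
            have e2 : (s 0 : ℕ) * 5 ^ m = 2 * ((s 0 : ℕ) * k) + (s 0 : ℕ) := by rw [hk]; ring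
            rw [e2]
            generalize (s 0 : ℕ) * k = K
            have := hm.2
            have h5 := hc.1
            omega
          have a1 := (X_bd (p + (t 0 : ℕ)) (sh t)).1
          have a2 := (X_bd (p + (s 0 : ℕ)) (sh s)).2
          have a3 := (Y_bd (p + (t 0 : ℕ)) (sh t)).1
          have a4 := (Y_bd (p + (s 0 : ℕ)) (sh s)).2
          have hc1 : (0 : ℝ) ≤ (cA f : ℝ) / 16 := by linarith
          have hc2 : (0 : ℝ) ≤ (cB f : ℝ) / 16 := by linarith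
          have m1 := mul_nonneg hc1 a1
          have m2 := mul_nonneg hc1 (sub_nonneg.2 a2)
          have m3 := mul_nonneg hc2 a3
          have m4 := mul_nonneg hc2 (sub_nonneg.2 a4)
          have hpm : (0 : ℝ) ≤ (6 / 25 : ℝ) ^ m := by positivity
          rcases hor with ho | ho
          · have := top_sep (α := (cA f : ℝ) / 16) (β := (cB f : ℝ) / 16) (by linarith) (by linarith)
              m (p + (s 0 : ℕ)) (sh s) ho
            rw [pow_succ]
            nlinarith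
          · have := bot_sep (α := (cA f : ℝ) / 16) (β := (cB f : ℝ) / 16) (by linarith) (by linarith)
              m (p + (t 0 : ℕ)) (sh t) ho
            rw [pow_succ]
            nlinarith
        · have h3 : (4 : ℝ) ≤ (dd f p (s 0) (t 0) : ℝ) := by exact_mod_cast (hf p).2.1 hm
          nlinarith
    · -- equal first digits
      have hj : idx m (sh s) < idx m (sh t) := by
        simp only [idx, hab] at h
        omega
      obtain ⟨α, β, h1, h2, h3, h4, h5, h6⟩ := ih (p + (s 0 : ℕ)) (sh s) (sh t) hj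
      refine ⟨α, β, h1, h2, h3, h4, ?_, ?_⟩
      · intro q
        rw [X_rec q s, X_rec q t, Y_rec q s, Y_rec q t, ← hab]
        have := h5 (q + (s 0 : ℕ))
        nlinarith
      · intro hg
        rw [X_rec p s, X_rec p t, Y_rec p s, Y_rec p t, ← hab, pow_succ]
        have := h6 (by
          intro hc
          apply hg
          simp only [idx, ← hab]
          have e2 : (s 0 : ℕ) * 5 ^ m = 2 * ((s 0 : ℕ) * k) + (s 0 : ℕ) := by rw [hk]; ring
          rw [e2]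
          generalize (s 0 : ℕ) * k = K
          omega)
        nlinarith
    · exfalso
      have hv : (t 0 : ℕ) + 1 ≤ (s 0 : ℕ) := hab
      have := Nat.mul_le_mul_right (5 ^ m) hv
      simp only [idx] at h
      rw [add_mul, one_mul] at this
      omega

end R380.Exc
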